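import Mathlib

set_option autoImplicit false
set_option maxHeartbeats 400000

namespace Pool.Agent.Results.MP_441cc7_al.Indep

open Polynomial Finset

noncomputable def P (t : ℕ → ℝ) (m i : ℕ) : ℝ[X] := ∏ j ∈ range m, (X - C (t (i + (j + 1))))

theorem diff (t : ℕ → ℝ) (m i : ℕ) :
    P t (m + 1) i = P t (m + 1) (i + 1) + (t (i + 1 + (m + 1)) - t (i + 1)) • P t m (i + 1) := by
  rw [P, prod_range_succ', P, prod_range_succ, smul_eq_C_mul, P]
  simp only [add_right_comm i 1, add_assoc, zero_add, map_sub]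
  ring

theorem step (t : ℕ → ℝ) (ht : StrictMonoOn t (Set.Ici 1)) (f : ℝ[X] →ₗ[ℝ] ℝ) (m a b : ℕ)
    (hab : a < b) (h : f (P t (m + 1) b) ≤ f (P t (m + 1) a)) :
    ∃ c, a < c ∧ c ≤ b ∧ 0 ≤ f (P t m c) := by
  by_contra! k
  refine h.not_gt ?_
  induction b, hab using Nat.le_induction with
  | base =>
    rw [diff t m a, map_add, map_smul, smul_eq_mul]
    have := ht (a := a + 1) (b := a + 1 + (m + 1)) (by simp) (by simp; omega) (by omega)
    nlinarith [k (a + 1) (by omega) le_rfl]
  | succ b hb ih =>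
    have h1 := congrArg f (diff t m b)
    rw [map_add, map_smul, smul_eq_mul] at h1
    have := ht (a := b + 1) (b := b + 1 + (m + 1)) (by simp) (by simp; omega) (by omega)
    have h2 : f (P t (m + 1) b) < f (P t (m + 1) (b + 1)) := by
      nlinarith [k (b + 1) (by omega) le_rfl]
    by_cases h3 : f (P t (m + 1) b) ≤ f (P t (m + 1) a)
    · exact (ih h3 fun c h4 h5 => k c h4 (by omega)).trans h2
    · exact (not_le.1 h3).trans h2

theorem alt (t : ℕ → ℝ) (ht : StrictMonoOn t (Set.Ici 1)) (f : ℝ[X] →ₗ[ℝ] ℝ) (r s : ℕ) :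
    ∀ i : ℕ → ℕ, (∀ l < s, i l < i (l + 1)) → (∀ l ≤ s, 0 ≤ (-1) ^ l * f (P t (r + s) (i l))) →
    ∃ c, 0 ≤ f (P t r c) := by
  induction s with
  | zero => exact fun i _ h => ⟨i 0, by simpa using h 0 le_rfl⟩
  | succ s ih =>
    intro i h1 h2
    have h3 : ∀ l, ∃ c, l ≤ s → i l < c ∧ c ≤ i (l + 1) ∧ 0 ≤ (-1) ^ l * f (P t (r + s) c) := by
      intro l
      by_cases hl : l ≤ s
      · obtain ⟨c, hc⟩ := step t ht (((-1) ^ l : ℝ) • f) (r + s) _ _ (h1 l (by omega)) (by
          have a1 := h2 l (by omega)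
          have a2 := h2 (l + 1) (by omega)
          simp only [LinearMap.smul_apply, smul_eq_mul, ← add_assoc, pow_succ] at a1 a2 ⊢
          linarith)
        exact ⟨c, fun _ => hc⟩
      · exact ⟨0, fun h => absurd h hl⟩
    choose c hc using h3
    exact ih c (fun l hl => (hc l hl.le).2.1.trans_lt (hc (l + 1) hl).1) fun l hl => (hc l hl).2.2

theorem P_monic (t : ℕ → ℝ) (m i : ℕ) : (P t m i).Monic ∧ (P t m i).natDegree = m :=
  ⟨monic_prod_of_monic _ _ fun _ _ => monic_X_sub_C _, by
    rw [P, natDegree_prod_of_monic _ _ fun _ _ => monic_X_sub_C _]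
    simp⟩

theorem result (k : ℕ) (hk : 2 ≤ k) (t : ℕ → ℝ) (ht : StrictMonoOn t (Set.Ici 1)) (i : Fin k → ℕ)
    (hi : StrictMono i) :
    LinearIndependent ℝ fun l : Fin k => ∏ j ∈ Icc 1 (k - 1), (X - C (t (i l + j)) : ℝ[X]) := by
  obtain ⟨n, rfl⟩ : ∃ n, k = n + 1 := ⟨k - 1, by omega⟩
  have e : (fun l : Fin (n + 1) => ∏ j ∈ Icc 1 (n + 1 - 1), (X - C (t (i l + j)) : ℝ[X])) =
      fun l => P t n (i l) := by
    funext l
    rw [P, range_eq_Ico, prod_Ico_add' (fun j => X - C (t (i l + j)))]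
    rfl
  rw [e, linearIndependent_iff_card_le_finrank_span]
  have h1 : degreeLT ℝ (n + 1) ≤ Submodule.span ℝ (Set.range fun l => P t n (i l)) := by
    intro p hp
    by_contra hn
    obtain ⟨f, hf, hf'⟩ := Submodule.exists_le_ker_of_notMem hn
    have h2 : ∀ l, f (P t n (i l)) = 0 := fun l => hf' (Submodule.subset_span ⟨l, rfl⟩)
    have h3 : ∀ r ≤ n + 1, ∀ q : ℝ[X], q.degree < r → f q = 0 := by
      intro r hr
      induction r with
      | zero => intro q hq; rw [show q = 0 from degree_eq_bot.1 (by simpa using hq), map_zero]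
      | succ r ih =>
        replace ih := ih (by omega)
        have h4 : ∀ c, f (P t r c) = f (X ^ r) := fun c => by
          rw [← sub_eq_zero, ← map_sub]
          refine ih _ ?_
          have h5 := (degree_eq_iff_natDegree_eq (P_monic t r c).1.ne_zero).2 (P_monic t r c).2
          exact h5 ▸ degree_sub_lt_left (by rw [h5, degree_X_pow]) (P_monic t r c).1.ne_zero
            (by rw [(P_monic t r c).1.leadingCoeff, leadingCoeff_X_pow])
        have h5 : ∀ g : ℝ[X] →ₗ[ℝ] ℝ, (∀ l, g (P t n (i l)) = 0) → ∃ c, 0 ≤ g (P t r c) :=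
          fun g hg => alt t ht g r (n - r) (fun l => if h : l < n + 1 then i ⟨l, h⟩ else 0)
            (fun l hl => by
              rw [dif_pos (by omega), dif_pos (by omega)]
              exact hi (by simp))
            fun l hl => by rw [dif_pos (by omega), Nat.add_sub_cancel' (by omega), hg, mul_zero]
        obtain ⟨c, hc⟩ := h5 f h2
        obtain ⟨d, hd⟩ := h5 (-f) (by simpa using h2)
        rw [LinearMap.neg_apply, h4] at hd
        rw [h4] at hc
        intro q hq
        have h6 := ih (q - q.coeff r • X ^ r) ((degree_lt_iff_coeff_zero _ _).2 fun m hm => by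
          rcases hm.eq_or_lt with rfl | h
          · simp
          · simp [coeff_X_pow, h.ne', (degree_lt_iff_coeff_zero _ _).1 hq m h])
        rw [map_sub, map_smul, show f (X ^ r) = 0 by linarith, smul_zero, sub_zero] at h6
        exact h6
    exact hf (h3 _ le_rfl p (mem_degreeLT.1 hp))
  have := Module.Finite.span_of_finite ℝ (Set.finite_range fun l => P t n (i l))
  refine le_trans ?_ (Submodule.finrank_mono h1)
  rw [(degreeLTEquiv ℝ (n + 1)).finrank_eq]
  simp

end Pool.Agent.Results.MP_441cc7_al.Indep
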